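import Pool.Agent.W680.WH.Stm

/-!
The derivative part for hyperbolic elements (WHH-DR).
-/

set_option autoImplicit false

open scoped ComplexConjugate InnerProductSpace
open ContinuousLinearMap Filter

namespace Pool.Agent.W74.WH.Dr

section alg

variable {A : Type} [Ring A] [Algebra ℂ A]

omit [Algebra ℂ A] in
lemma comm_inv {u G x : A} (h1 : u * G = 1) (h2 : G * u = 1) (hx : u * x = x * u) :
    G * x = x * G := by
  calc G * x = G * x * (u * G) := by rw [h1, mul_one]
    _ = G * (x * u) * G := by noncomm_ring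
    _ = G * (u * x) * G := by rw [hx]
    _ = (G * u) * x * G := by noncomm_ring
    _ = x * G := by rw [h2, one_mul]

omit [Algebra ℂ A] in
lemma sandwich {u G v H x y : A} (hG : G * u = 1) (hH : v * H = 1) (h : u * x * v = y) :
    x = G * y * H := by
  rw [← h]
  calc x = (G * u) * x * (v * H) := by rw [hG, hH, one_mul, mul_one]
    _ = G * (u * x * v) * H := by noncomm_ring

lemma core (a : ℂ) (Z Z2 Zs G G2 Gs L M d X P P2 P2i F1 : A)
    (hz1 : Z2 * Zs = 1) (hz2 : Zs * Z2 = 1)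
    (g1 : (1 - a • Z) * G = 1) (g2 : G * (1 - a • Z) = 1)
    (g3 : (1 - a • Z2) * G2 = 1) (g4 : G2 * (1 - a • Z2) = 1)
    (g5 : (1 - a • Zs) * Gs = 1) (g6 : Gs * (1 - a • Zs) = 1)
    (hL : L * Z = Z * L)
    (hF : F1 = -(a • G2) + a • (Zs * Zs * Gs))
    (hM : Z * M - M * Z = -((2 : ℂ) • ((Z - Z2) * F1 * (Z - Z2))))
    (hd : d = (1 / 2 : ℂ) • (L - M))
    (hX : X = -((2 : ℂ) • (Z - Z2) + (Z - Z2) * Zs * (Z - Z2)))
    (hP : P = (Z - a • 1) * G) (hP2 : P2 = (Z2 - a • 1) * G2)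
    (hP2i : P2i = (Zs - a • 1) * Gs) :
    (1 - a ^ 2) • (G * X * G) =
      -((2 : ℂ) • (P - P2) + (P - P2) * P2i * (P - P2)) + (P * d - d * P) := by
  have cZ : G * Z = Z * G := comm_inv g1 g2 (by
    simp only [sub_mul, mul_sub, smul_mul_assoc, mul_smul_comm, one_mul, mul_one])
  have cZ2 : G2 * Z2 = Z2 * G2 := comm_inv g3 g4 (by
    simp only [sub_mul, mul_sub, smul_mul_assoc, mul_smul_comm, one_mul, mul_one])
  have cL : G * L = L * G := comm_inv g1 g2 (by
    simp only [sub_mul, mul_sub, smul_mul_assoc, mul_smul_comm, one_mul, mul_one, hL])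
  have hP' : P = G * (Z - a • 1) := by
    rw [hP]
    simp only [sub_mul, mul_sub, smul_mul_assoc, mul_smul_comm, one_mul, mul_one, cZ]
  have hP2' : P2 = G2 * (Z2 - a • 1) := by
    rw [hP2]
    simp only [sub_mul, mul_sub, smul_mul_assoc, mul_smul_comm, one_mul, mul_one, cZ2]
  have uP : (1 - a • Z) * P = Z - a • 1 := by rw [hP', ← mul_assoc, g1, one_mul]
  have Pu : P * (1 - a • Z) = Z - a • 1 := by rw [hP, mul_assoc, g2, mul_one]
  have uP2 : (1 - a • Z2) * P2 = Z2 - a • 1 := by rw [hP2', ← mul_assoc, g3, one_mul]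
  have P2u : P2 * (1 - a • Z2) = Z2 - a • 1 := by rw [hP2, mul_assoc, g4, mul_one]
  have c1 : P - P2 = G * ((1 - a ^ 2) • (Z - Z2)) * G2 := by
    refine sandwich g2 g3 ?_
    calc (1 - a • Z) * (P - P2) * (1 - a • Z2)
        = ((1 - a • Z) * P) * (1 - a • Z2) - (1 - a • Z) * (P2 * (1 - a • Z2)) := by
          simp only [mul_sub, sub_mul, mul_assoc]
          abel
      _ = (Z - a • 1) * (1 - a • Z2) - (1 - a • Z) * (Z2 - a • 1) := by rw [uP, P2u]
      _ = (1 - a ^ 2) • (Z - Z2) := by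
          simp only [sub_mul, mul_sub, smul_mul_assoc, mul_smul_comm, one_mul, mul_one]
          module
  have c2 : P - P2 = G2 * ((1 - a ^ 2) • (Z - Z2)) * G := by
    refine sandwich g4 g1 ?_
    calc (1 - a • Z2) * (P - P2) * (1 - a • Z)
        = (1 - a • Z2) * (P * (1 - a • Z)) - ((1 - a • Z2) * P2) * (1 - a • Z) := by
          simp only [mul_sub, sub_mul, mul_assoc]
          abel
      _ = (1 - a • Z2) * (Z - a • 1) - (Z2 - a • 1) * (1 - a • Z) := by rw [Pu, uP2]
      _ = (1 - a ^ 2) • (Z - Z2) := by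
          simp only [sub_mul, mul_sub, smul_mul_assoc, mul_smul_comm, one_mul, mul_one]
          module
  have c3 : P * M - M * P = G * ((1 - a ^ 2) • (Z * M - M * Z)) * G := by
    refine sandwich g2 g1 ?_
    calc (1 - a • Z) * (P * M - M * P) * (1 - a • Z)
        = ((1 - a • Z) * P) * M * (1 - a • Z) - (1 - a • Z) * M * (P * (1 - a • Z)) := by
          simp only [mul_sub, sub_mul, mul_assoc]
          abel
      _ = (Z - a • 1) * M * (1 - a • Z) - (1 - a • Z) * M * (Z - a • 1) := by rw [uP, Pu]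
      _ = (1 - a ^ 2) • (Z * M - M * Z) := by
          simp only [sub_mul, mul_sub, smul_mul_assoc, mul_smul_comm, one_mul, mul_one,
            mul_assoc]
          module
  have cPL : P * L = L * P := by
    rw [hP, mul_assoc, cL, ← mul_assoc]
    rw [← mul_assoc]
    congr 1
    simp only [sub_mul, mul_sub, smul_mul_assoc, mul_smul_comm, one_mul, mul_one, hL]
  have c4 : G2 * P2i = Zs * Gs := by
    have e : (1 - a • Z2) * Zs = Zs - a • 1 := by
      simp only [sub_mul, smul_mul_assoc, one_mul, hz1]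
    rw [hP2i, ← e, ← mul_assoc, ← mul_assoc, g4, one_mul]
  have c5 : (1 - a ^ 2) • (Zs * Gs * G2) = Zs + a • G2 + a • (Zs * Zs * Gs) := by
    have cs : Gs * Zs = Zs * Gs := comm_inv g5 g6 (by
      simp only [sub_mul, mul_sub, smul_mul_assoc, mul_smul_comm, one_mul, mul_one])
    have e1 : (1 - a • Zs) * (Zs * Gs) = Zs := by
      rw [← cs, ← mul_assoc, g5, one_mul]
    have e2 : (1 - a • Zs) * ((1 - a ^ 2) • (Zs * Gs * G2)) * (1 - a • Z2) =
        (1 - a ^ 2) • Zs := by
      calc (1 - a • Zs) * ((1 - a ^ 2) • (Zs * Gs * G2)) * (1 - a • Z2)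
          = (1 - a ^ 2) • (((1 - a • Zs) * (Zs * Gs)) * (G2 * (1 - a • Z2))) := by
            rw [mul_smul_comm, smul_mul_assoc]
            simp only [mul_assoc]
        _ = (1 - a ^ 2) • Zs := by rw [e1, g4, mul_one]
    have e3 : (1 - a • Zs) * (Zs + a • G2 + a • (Zs * Zs * Gs)) * (1 - a • Z2) =
        (1 - a ^ 2) • Zs := by
      have e4 : (1 - a • Zs) * (Zs * Zs * Gs) = Zs * Zs := by
        calc (1 - a • Zs) * (Zs * Zs * Gs) = Zs * ((1 - a • Zs) * (Zs * Gs)) := by
              simp only [sub_mul, mul_sub, smul_mul_assoc, mul_smul_comm, one_mul, mul_assoc]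
          _ = Zs * Zs := by rw [e1]
      calc (1 - a • Zs) * (Zs + a • G2 + a • (Zs * Zs * Gs)) * (1 - a • Z2)
          = (1 - a • Zs) * Zs * (1 - a • Z2) + a • ((1 - a • Zs) * (G2 * (1 - a • Z2))) +
            a • (((1 - a • Zs) * (Zs * Zs * Gs)) * (1 - a • Z2)) := by
            simp only [mul_add, add_mul, mul_smul_comm, smul_mul_assoc, mul_assoc]
        _ = (1 - a • Zs) * Zs * (1 - a • Z2) + a • (1 - a • Zs) +
            a • ((Zs * Zs) * (1 - a • Z2)) := by rw [g4, mul_one, e4]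
        _ = (1 - a ^ 2) • Zs := by
            simp only [sub_mul, mul_sub, smul_mul_assoc, mul_smul_comm, one_mul, mul_one,
              mul_assoc, hz2]
            module
    rw [sandwich g6 g3 e2, sandwich g6 g3 e3]
  have c6 : G2 + a • (G2 * (Z - Z2) * G) = G := by
    calc G2 + a • (G2 * (Z - Z2) * G) = G2 * ((1 - a • Z) * G) + a • (G2 * (Z - Z2) * G) := by
          rw [g1, mul_one]
      _ = (G2 * (1 - a • Z2)) * G := by
          simp only [sub_mul, mul_sub, smul_mul_assoc, mul_smul_comm, one_mul, mul_one,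
            mul_assoc]
          module
      _ = G := by rw [g4, one_mul]
  set q : A := Z - Z2 with hq
  set β : ℂ := 1 - a ^ 2 with hβ
  have t1 : P * d - d * P = β • (G * q * F1 * q * G) := by
    have e : P * d - d * P = -((1 / 2 : ℂ) • (P * M - M * P)) := by
      rw [hd]
      simp only [mul_smul_comm, smul_mul_assoc, mul_sub, sub_mul, cPL]
      module
    rw [e, c3, hM]
    simp only [mul_smul_comm, smul_mul_assoc, mul_neg, neg_mul, smul_neg, smul_smul, mul_assoc,
      neg_neg]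
    congr 1
    ring
  have t2 : (P - P2) * P2i * (P - P2) =
      β • (G * q * (Zs + a • G2 + a • (Zs * Zs * Gs)) * q * G) := by
    rw [← c5]
    have c4' : ∀ x, G2 * (P2i * x) = Zs * (Gs * x) := by
      intro x
      rw [← mul_assoc, c4, mul_assoc]
    calc (P - P2) * P2i * (P - P2) = (G * (β • q) * G2) * P2i * (G2 * (β • q) * G) :=
          congrArg₂ (fun x y => x * P2i * y) c1 c2
      _ = β • (G * q * (β • (Zs * Gs * G2)) * q * G) := by
          simp only [mul_smul_comm, smul_mul_assoc, smul_smul, mul_assoc, c4']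
  have c1' : P - P2 = β • (G * q * G2) := by
    rw [c1]
    simp only [mul_smul_comm, smul_mul_assoc]
  have c7 : G * (q * G) = G * (q * G2) + a • (G * (q * (G2 * (q * G)))) := by
    calc G * (q * G) = G * (q * (G2 + a • (G2 * q * G))) := by rw [c6]
      _ = G * (q * G2) + a • (G * (q * (G2 * (q * G)))) := by
          simp only [mul_add, mul_smul_comm, mul_assoc]
  rw [t1, t2, c1', hX, hF]
  simp only [mul_add, add_mul, mul_neg, neg_mul, mul_smul_comm, smul_mul_assoc, mul_assoc]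
  rw [c7]
  module

end alg

open Pool.Agent.W680.WH

theorem dr (h1 : S_LOG) (h2 : S_SCH) (h3 : S_OPA) (h4 : S_INV) (h5 : S_OPJ) : S_DR := by
  obtain ⟨C, hC⟩ := h2
  refine ⟨C / 2, ?_⟩
  intro r hr0 hr1
  obtain ⟨L, hmat, hLZ, hjL, hjM, hcom⟩ := h1 r hr0 hr1
  have hn : ‖(r : ℂ)‖ < 1 := by
    rw [Complex.norm_real, Real.norm_of_nonneg hr0]; exact hr1
  obtain ⟨i1, -, i3, i4, -, -⟩ := h4 (r : ℂ) hn
  obtain ⟨-, -, -, -, -, -, hjadd, hjsmul, -, -, -, -⟩ := h5
  refine ⟨(1 / 2 : ℂ) • (L - adjoint L), ?_, ?_, ?_, ?_⟩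
  · rw [map_smulₛₗ, map_sub, adjoint_adjoint]
    have e : (starRingEnd ℂ) (1 / 2 : ℂ) = 1 / 2 := by
      rw [map_div₀, map_one]
      congr 1
      exact Complex.conj_ofNat 2
    rw [e]
    module
  · intro f
    have hneg : ∀ g, jj (-g) = -jj g := by
      intro g
      have := hjsmul (-1) g
      simpa using this
    have e : (starRingEnd ℂ) (1 / 2 : ℂ) = 1 / 2 := by
      rw [map_div₀, map_one]
      congr 1
      exact Complex.conj_ofNat 2
    change jj ((1 / 2 : ℂ) • (L f - adjoint L f)) = (1 / 2 : ℂ) • (L (jj f) - adjoint L (jj f))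
    rw [hjsmul, e, sub_eq_add_neg, hjadd, hneg, hjL, hjM, ← sub_eq_add_neg]
  · rw [norm_smul]
    have e : ‖(1 / 2 : ℂ)‖ = 1 / 2 := by norm_num
    rw [e]
    have := hC r L hr0 hr1 hmat
    linarith
  · intro G P P2 P2i hG hP hP2 hP2i
    have e : ((1 - r ^ 2 : ℝ) : ℂ) = 1 - (r : ℂ) ^ 2 := by push_cast; ring
    rw [e]
    refine core (r : ℂ) Z Z2 Zs G (Ring.inverse (1 - (r : ℂ) • Z2)) (Ring.inverse (1 - (r : ℂ) • Zs))
      L (adjoint L) _ X P P2 P2i _ h3.1.2.2.1 h3.1.2.2.2 ?_ ?_ ?_ ?_ ?_ ?_ hLZ rfl ?_ rfl rfl hP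
      hP2 hP2i
    · rw [hG]; exact Ring.mul_inverse_cancel _ i1
    · rw [hG]; exact Ring.inverse_mul_cancel _ i1
    · exact Ring.mul_inverse_cancel _ i3
    · exact Ring.inverse_mul_cancel _ i3
    · exact Ring.mul_inverse_cancel _ i4
    · exact Ring.inverse_mul_cancel _ i4
    · exact hcom

end Pool.Agent.W74.WH.Dr
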