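import Pool.Agent.W181.WH.Stm

set_option autoImplicit false

open MeasureTheory
open scoped Matrix

namespace Pool.Agent.W74.WH.CHOL

open Pool.Agent.W181.WH

/-- unipotent lower triangular -/
def LU {ι : Type*} [LinearOrder ι] (L : Matrix ι ι ℝ) : Prop :=
  (∀ i j, i < j → L i j = 0) ∧ ∀ i, L i i = 1

theorem LU.det {ι : Type*} [LinearOrder ι] [Fintype ι] [DecidableEq ι] {L : Matrix ι ι ℝ}
    (h : LU L) : L.det = 1 := by
  have h1 : L.IsLowerTriangular := by
    intro i j hij
    exact h.1 i j (OrderDual.toDual_lt_toDual.1 hij)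
  rw [Matrix.det_of_isLowerTriangular L h1]
  exact Finset.prod_eq_one fun i _ => h.2 i

theorem LU.unit {ι : Type*} [LinearOrder ι] [Fintype ι] [DecidableEq ι] {L : Matrix ι ι ℝ}
    (h : LU L) : IsUnit L := by
  rw [Matrix.isUnit_iff_isUnit_det, h.det]
  exact isUnit_one

theorem lu_lM {m : ℕ} (v : LIdx m → ℝ) : LU (lM v) := by
  constructor
  · intro i j hij
    unfold lM
    rw [dif_neg (not_lt.2 hij.le), if_neg hij.ne]
  · intro i
    unfold lM
    rw [dif_neg (lt_irrefl i), if_pos rfl]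

theorem lM_of {m : ℕ} {L : Matrix (Fin m) (Fin m) ℝ} (h : LU L) :
    lM (fun p : LIdx m => L p.1.1 p.1.2) = L := by
  ext i j
  unfold lM
  by_cases hij : j < i
  · rw [dif_pos hij]
  · rw [dif_neg hij]
    by_cases h2 : i = j
    · subst h2; rw [if_pos rfl, h.2]
    · rw [if_neg h2, h.1 i j (lt_of_le_of_ne (not_lt.1 hij) h2)]

theorem star_eq {ι : Type*} (L : Matrix ι ι ℝ) : star L = Lᵀ := by
  rw [Matrix.star_eq_conjTranspose, Matrix.conjTranspose_eq_transpose_of_trivial]

theorem ltdl_apply {ι : Type*} [Fintype ι] [DecidableEq ι] (L : Matrix ι ι ℝ) (e : ι → ℝ)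
    (i j : ι) : (Lᵀ * Matrix.diagonal e * L) i j = ∑ r, L r i * e r * L r j := by
  rw [Matrix.mul_apply]
  simp [Matrix.mul_diagonal]

theorem ldlt_apply {ι : Type*} [Fintype ι] [DecidableEq ι] (L : Matrix ι ι ℝ) (e : ι → ℝ)
    (i j : ι) : (L * Matrix.diagonal e * Lᵀ) i j = ∑ r, L i r * e r * L j r := by
  rw [Matrix.mul_apply]
  simp [Matrix.mul_diagonal]

theorem posDef_ltdl {ι : Type*} [LinearOrder ι] [Fintype ι] [DecidableEq ι] {L : Matrix ι ι ℝ} (h : LU L)
    (e : ι → ℝ) : (Lᵀ * Matrix.diagonal e * L).PosDef ↔ ∀ i, 0 < e i := by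
  rw [← star_eq, Matrix.IsUnit.posDef_star_left_conjugate_iff h.unit, Matrix.posDef_diagonal_iff]

theorem posDef_ldlt {ι : Type*} [LinearOrder ι] [Fintype ι] [DecidableEq ι] {L : Matrix ι ι ℝ} (h : LU L)
    (e : ι → ℝ) : (L * Matrix.diagonal e * Lᵀ).PosDef ↔ ∀ i, 0 < e i := by
  rw [← star_eq, Matrix.IsUnit.posDef_star_right_conjugate_iff h.unit, Matrix.posDef_diagonal_iff]

/-- Cholesky decomposition -/
theorem chol : ∀ (m : ℕ) (P : Matrix (Fin m) (Fin m) ℝ), P.PosDef →
    ∃ (L : Matrix (Fin m) (Fin m) ℝ) (e : Fin m → ℝ), LU L ∧ (∀ i, 0 < e i) ∧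
      P = Lᵀ * Matrix.diagonal e * L := by
  intro m
  induction m with
  | zero =>
    intro P _
    refine ⟨1, fun _ => 1, ⟨fun i => i.elim0, fun i => i.elim0⟩, fun i => i.elim0, ?_⟩
    ext i
    exact i.elim0
  | succ m ih =>
    intro P hP
    have hP' : (P.submatrix Fin.succ Fin.succ).PosDef := hP.submatrix (Fin.succ_injective m)
    obtain ⟨L', e', hL', he', hPL⟩ := ih _ hP'
    have hsym : ∀ i j, P i j = P j i := by
      intro i j
      have := hP.isHermitian.apply j i
      simpa using this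
    have hA : IsUnit (L'ᵀ * Matrix.diagonal e') := by
      rw [Matrix.isUnit_iff_isUnit_det, Matrix.det_mul, Matrix.det_transpose, hL'.det, one_mul,
        Matrix.det_diagonal, isUnit_iff_ne_zero]
      exact Finset.prod_ne_zero_iff.2 fun i _ => (he' i).ne'
    set c : Fin m → ℝ := (L'ᵀ * Matrix.diagonal e')⁻¹ *ᵥ (fun j => P 0 j.succ) with hc
    have hcb : (L'ᵀ * Matrix.diagonal e') *ᵥ c = fun j => P 0 j.succ := by
      rw [hc, Matrix.mulVec_mulVec, Matrix.mul_nonsing_inv _
        ((Matrix.isUnit_iff_isUnit_det _).1 hA), Matrix.one_mulVec]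
    have hcb' : ∀ j, ∑ r, c r * e' r * L' r j = P 0 j.succ := by
      intro j
      rw [← congrFun hcb j, Matrix.mulVec, dotProduct]
      refine Finset.sum_congr rfl fun r _ => ?_
      simp [Matrix.mul_diagonal]
      ring
    set L : Matrix (Fin (m + 1)) (Fin (m + 1)) ℝ := fun i j =>
      Fin.cases (Fin.cases 1 (fun _ => 0) j : ℝ)
        (fun i' => Fin.cases (c i') (fun j' => L' i' j') j) i with hLdef
    have L00 : L 0 0 = 1 := rfl
    have L0s : ∀ j : Fin m, L 0 j.succ = 0 := fun j => rfl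
    have Ls0 : ∀ i : Fin m, L i.succ 0 = c i := fun i => rfl
    have Lss : ∀ i j : Fin m, L i.succ j.succ = L' i j := fun i j => rfl
    set e : Fin (m + 1) → ℝ := fun i => Fin.cases (P 0 0 - ∑ r, c r * e' r * c r) e' i with hedef
    have e0 : e 0 = P 0 0 - ∑ r, c r * e' r * c r := rfl
    have es : ∀ i : Fin m, e i.succ = e' i := fun i => rfl
    have hLU : LU L := by
      constructor
      · intro i j
        refine Fin.cases ?_ (fun i' => ?_) i
        · refine Fin.cases ?_ (fun j' => ?_) j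
          · intro h; exact absurd h (lt_irrefl _)
          · intro _; exact L0s j'
        · refine Fin.cases ?_ (fun j' => ?_) j
          · intro h; exact absurd h (not_lt.2 (Fin.zero_le _))
          · intro h
            rw [Lss]
            exact hL'.1 i' j' (Fin.succ_lt_succ_iff.1 h)
      · intro i
        refine Fin.cases ?_ (fun i' => ?_) i
        · exact L00
        · rw [Lss]; exact hL'.2 i'
    have hPe : P = Lᵀ * Matrix.diagonal e * L := by
      ext i j
      rw [ltdl_apply, Fin.sum_univ_succ]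
      refine Fin.cases ?_ (fun i' => ?_) i
      · refine Fin.cases ?_ (fun j' => ?_) j
        · simp only [L00, Ls0, e0, es]
          ring
        · simp only [L00, Ls0, L0s, Lss, es, mul_zero, zero_add]
          exact (hcb' j').symm
      · refine Fin.cases ?_ (fun j' => ?_) j
        · simp only [L0s, Ls0, Lss, es, zero_mul, zero_add]
          rw [hsym, ← hcb' i']
          refine Finset.sum_congr rfl fun r _ => ?_
          ring
        · simp only [L0s, Lss, es, zero_mul, zero_add]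
          have := congrFun (congrFun hPL i') j'
          rw [ltdl_apply] at this
          exact this
    refine ⟨L, e, hLU, ?_, hPe⟩
    rw [← posDef_ltdl hLU, ← hPe]
    exact hP

/-- the lower right minors -/
theorem minor_ge {m : ℕ} {L : Matrix (Fin m) (Fin m) ℝ} (hL : LU L) (e : Fin m → ℝ) (k : Fin m) :
    Bm (Lᵀ * Matrix.diagonal e * L) k = ∏ i ∈ Finset.Ici k, e i := by
  unfold Bm
  set L' : Matrix {i : Fin m // k ≤ i} {i : Fin m // k ≤ i} ℝ :=
    L.submatrix Subtype.val Subtype.val with hL'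
  have hLU' : LU L' := ⟨fun i j hij => hL.1 _ _ hij, fun i => hL.2 _⟩
  have hsub : (Lᵀ * Matrix.diagonal e * L).submatrix
      (Subtype.val : {i : Fin m // k ≤ i} → Fin m) (Subtype.val : {i : Fin m // k ≤ i} → Fin m)
      = L'ᵀ * Matrix.diagonal (fun i => e i.1) * L' := by
    ext i j
    rw [Matrix.submatrix_apply, ltdl_apply, ltdl_apply]
    have h1 : ∑ r : Fin m, L r i.1 * e r * L r j.1
        = ∑ r ∈ Finset.univ.filter (fun r => k ≤ r), L r i.1 * e r * L r j.1 := by
      symm
      refine Finset.sum_subset (Finset.filter_subset _ _) fun r _ hr => ?_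
      have : ¬ k ≤ r := by simpa using hr
      rw [hL.1 r i.1 (lt_of_lt_of_le (not_le.1 this) i.2)]
      ring
    rw [h1]
    exact (Finset.sum_subtype (Finset.univ.filter (fun r => k ≤ r)) (by simp)
      (fun r => L r i.1 * e r * L r j.1))
  rw [hsub, Matrix.det_mul, Matrix.det_mul, Matrix.det_transpose, hLU'.det, Matrix.det_diagonal]
  rw [one_mul, mul_one]
  exact (Finset.prod_subtype (Finset.Ici k) (by simp) e).symm

/-- the upper left minors -/
theorem minor_le {m : ℕ} {L : Matrix (Fin m) (Fin m) ℝ} (hL : LU L) (e : Fin m → ℝ) (k : Fin m) :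
    Um (L * Matrix.diagonal e * Lᵀ) k = ∏ i ∈ Finset.Iic k, e i := by
  unfold Um
  set L' : Matrix {i : Fin m // i ≤ k} {i : Fin m // i ≤ k} ℝ :=
    L.submatrix Subtype.val Subtype.val with hL'
  have hLU' : LU L' := ⟨fun i j hij => hL.1 _ _ hij, fun i => hL.2 _⟩
  have hsub : (L * Matrix.diagonal e * Lᵀ).submatrix
      (Subtype.val : {i : Fin m // i ≤ k} → Fin m) (Subtype.val : {i : Fin m // i ≤ k} → Fin m)
      = L' * Matrix.diagonal (fun i => e i.1) * L'ᵀ := by
    ext i j
    rw [Matrix.submatrix_apply, ldlt_apply, ldlt_apply]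
    have h1 : ∑ r : Fin m, L i.1 r * e r * L j.1 r
        = ∑ r ∈ Finset.univ.filter (fun r => r ≤ k), L i.1 r * e r * L j.1 r := by
      symm
      refine Finset.sum_subset (Finset.filter_subset _ _) fun r _ hr => ?_
      have : ¬ r ≤ k := by simpa using hr
      rw [hL.1 i.1 r (lt_of_le_of_lt i.2 (not_le.1 this))]
      ring
    rw [h1]
    exact (Finset.sum_subtype (Finset.univ.filter (fun r => r ≤ k)) (by simp)
      (fun r => L i.1 r * e r * L j.1 r))
  rw [hsub, Matrix.det_mul, Matrix.det_mul, Matrix.det_transpose, hLU'.det, Matrix.det_diagonal]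
  rw [one_mul, mul_one]
  exact (Finset.prod_subtype (Finset.Iic k) (by simp) e).symm

theorem t_chol : S_CHOL := by
  intro m
  refine ⟨fun P hP => ?_, fun q hq => ⟨?_, ?_⟩, fun q k => ⟨?_, ?_⟩⟩
  · obtain ⟨L, e, hL, he, hPe⟩ := chol m P hP
    refine ⟨(fun i => Real.sqrt (e i), fun p => L p.1.1 p.1.2), fun i => Real.sqrt_pos.2 (he i), ?_⟩
    unfold ML
    simp only
    rw [lM_of hL, hPe]
    congr 3
    funext i
    rw [Real.sq_sqrt (he i).le]
  · unfold ML
    rw [posDef_ltdl (lu_lM q.2)]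
    intro i
    exact pow_pos (hq i) 2
  · unfold MU
    rw [posDef_ldlt (lu_lM q.2)]
    intro i
    exact pow_pos (hq i) 2
  · exact minor_ge (lu_lM q.2) _ k
  · exact minor_le (lu_lM q.2) _ k

end Pool.Agent.W74.WH.CHOL
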