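import Pool.Agent.W680.WH.Stm2

/-!
The lifts of small hyperbolic elements are strongly close to the identity (WHC-LS2).
-/

set_option autoImplicit false

open scoped ComplexConjugate InnerProductSpace
open ContinuousLinearMap Filter

namespace Pool.Agent.W74.WH.Ls2

open Pool.Agent.W680.WH

/-- `P` holds for all small positive lifts. -/
def Ev (P : (E →L[ℂ] E) → (E →L[ℂ] E) → Prop) : Prop :=
  ∃ δ : ℝ, 0 < δ ∧ δ < 1 ∧ ∀ (r : ℝ) (ρ : Mob) (V d : E →L[ℂ] E),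
    0 ≤ r → r < δ → ρ.c = 1 → ρ.a = r → Lift ρ V d → Pos V → P V d

lemma ev_and {P Q' : (E →L[ℂ] E) → (E →L[ℂ] E) → Prop} (h1 : Ev P) (h2 : Ev Q') :
    Ev (fun V d => P V d ∧ Q' V d) := by
  obtain ⟨δ1, a1, b1, c1⟩ := h1
  obtain ⟨δ2, a2, b2, c2⟩ := h2
  refine ⟨min δ1 δ2, lt_min a1 a2, lt_of_le_of_lt (min_le_left _ _) b1, ?_⟩
  intro r ρ V d hr hr' hc ha hL hP
  exact ⟨c1 r ρ V d hr (lt_of_lt_of_le hr' (min_le_left _ _)) hc ha hL hP,
    c2 r ρ V d hr (lt_of_lt_of_le hr' (min_le_right _ _)) hc ha hL hP⟩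

lemma ev_mono {P Q' : (E →L[ℂ] E) → (E →L[ℂ] E) → Prop} (h1 : Ev P)
    (h : ∀ V d, adjoint V * V = 1 → P V d → Q' V d) : Ev Q' := by
  obtain ⟨δ1, a1, b1, c1⟩ := h1
  refine ⟨δ1, a1, b1, ?_⟩
  intro r ρ V d hr hr' hc ha hL hP
  exact h V d hL.1 (c1 r ρ V d hr hr' hc ha hL hP)

lemma iso_of {V : E →L[ℂ] E} (h : adjoint V * V = 1) (x : E) : ‖V x‖ = ‖x‖ :=
  (ContinuousLinearMap.norm_map_iff_adjoint_comp_self V).2 h x

lemma lift_rel (hI : S_INV) (hA : S_BLA) (hM : S_BLM) (r : ℝ) (ρ : Mob) (V d : E →L[ℂ] E)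
    (hr : 0 ≤ r) (hr1 : r < 1) (hc : ρ.c = 1) (ha : ρ.a = r) (hL : Lift ρ V d) :
    V * Z - Z * V = (r : ℂ) • (V - Z * V * Z) := by
  obtain ⟨-, -, -, -, -, h⟩ := hL
  have h1 : V * ρ.op Z = Z * V := by
    unfold T at h
    rw [hM.2.2.2 ρ X, hA.1, hA.1] at h
    exact (hA.2.2.2.2.1 _ _ _ _ _ _ h).1
  have hn : ‖(r : ℂ)‖ < 1 := by
    rw [Complex.norm_real, Real.norm_of_nonneg hr]; exact hr1
  have hu := (hI (r : ℂ) hn).1
  have h2 : ρ.op Z = (Z - (r : ℂ) • (1 : E →L[ℂ] E)) * Ring.inverse (1 - (r : ℂ) • Z) := by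
    unfold Mob.op mob
    rw [hc, ha, Complex.conj_ofReal, one_smul]
  rw [h2] at h1
  have h3 : V * (Z - (r : ℂ) • (1 : E →L[ℂ] E)) = Z * V * (1 - (r : ℂ) • Z) := by
    rw [← h1, mul_assoc, mul_assoc, Ring.inverse_mul_cancel _ hu, mul_one]
  simp only [mul_sub, mul_smul_comm, mul_one] at h3
  have h4 : V * Z = Z * V - (r : ℂ) • (Z * V * Z) + (r : ℂ) • V := by
    rw [← h3]; abel
  rw [h4]
  module

lemma ev_comm (hI : S_INV) (hA : S_BLA) (hM : S_BLM) (x : E) (ε : ℝ) (hε : 0 < ε) :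
    Ev (fun V _ => ‖V (Z x) - Z (V x)‖ ≤ ε) := by
  set K : ℝ := ‖x‖ + ‖Z‖ * (‖Z‖ * ‖x‖) with hK
  have hK0 : 0 ≤ K := by positivity
  refine ⟨min (1 / 2) (ε / (K + 1)), by positivity,
    lt_of_le_of_lt (min_le_left _ _) (by norm_num), ?_⟩
  intro r ρ V d hr hr' hc ha hL hP
  have hr1 : r < 1 := lt_of_lt_of_le hr' ((min_le_left _ _).trans (by norm_num))
  have hr2 : r ≤ ε / (K + 1) := (lt_of_lt_of_le hr' (min_le_right _ _)).le
  have h1 := lift_rel hI hA hM r ρ V d hr hr1 hc ha hL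
  have h2 : V (Z x) - Z (V x) = (r : ℂ) • (V x - Z (V (Z x))) := by
    have := congrArg (fun A : E →L[ℂ] E => A x) h1
    exact this
  rw [h2, norm_smul, Complex.norm_real, Real.norm_of_nonneg hr]
  have h3 : ‖V x - Z (V (Z x))‖ ≤ K := by
    refine (norm_sub_le _ _).trans ?_
    rw [iso_of hL.1 x]
    have h4 : ‖Z (V (Z x))‖ ≤ ‖Z‖ * (‖Z‖ * ‖x‖) := by
      refine (Z.le_opNorm _).trans ?_
      rw [iso_of hL.1 (Z x)]
      exact mul_le_mul_of_nonneg_left (Z.le_opNorm x) (norm_nonneg _)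
    linarith
  calc r * ‖V x - Z (V (Z x))‖ ≤ ε / (K + 1) * K :=
        mul_le_mul hr2 h3 (norm_nonneg _) (by positivity)
    _ ≤ ε / (K + 1) * (K + 1) := by gcongr; linarith
    _ = ε := by field_simp

/-- Strong convergence at `x`. -/
def Sm (x : E) : Prop := ∀ ε : ℝ, 0 < ε → Ev (fun V _ => ‖V x - x‖ ≤ ε)

lemma sm_Z (hI : S_INV) (hA : S_BLA) (hM : S_BLM) {x : E} (h : Sm x) : Sm (Z x) := by
  intro ε hε
  have h1 := ev_comm hI hA hM x (ε / 2) (by positivity)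
  have h2 := h (ε / (2 * (‖Z‖ + 1))) (by positivity)
  refine ev_mono (ev_and h1 h2) ?_
  rintro V d - ⟨a, b⟩
  have e : V (Z x) - Z x = (V (Z x) - Z (V x)) + Z (V x - x) := by
    rw [map_sub]; abel
  rw [e]
  refine (norm_add_le _ _).trans ?_
  have c : ‖Z (V x - x)‖ ≤ ε / 2 := by
    refine (Z.le_opNorm _).trans ?_
    calc ‖Z‖ * ‖V x - x‖ ≤ (‖Z‖ + 1) * (ε / (2 * (‖Z‖ + 1))) :=
          mul_le_mul (by linarith) b (norm_nonneg _) (by positivity)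
      _ = ε / 2 := by field_simp
  linarith

lemma sm_Zi (hO : S_OPA) (hI : S_INV) (hA : S_BLA) (hM : S_BLM) {x : E} (h : Sm x) :
    Sm (Zi x) := by
  intro ε hε
  have h1 := ev_comm hI hA hM (Zi x) (ε / (2 * (‖Zi‖ + 1))) (by positivity)
  have h2 := h (ε / (2 * (‖Zi‖ + 1))) (by positivity)
  refine ev_mono (ev_and h1 h2) ?_
  rintro V d - ⟨a, b⟩
  have z1 : ∀ y, Z (Zi y) = y := fun y => congrArg (fun A : E →L[ℂ] E => A y) hO.1.1
  have z2 : ∀ y, Zi (Z y) = y := fun y => congrArg (fun A : E →L[ℂ] E => A y) hO.1.2.1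
  rw [z1] at a
  have e : V (Zi x) - Zi x = Zi ((V x - x) - (V x - Z (V (Zi x)))) := by
    have e1 : (V x - x) - (V x - Z (V (Zi x))) = Z (V (Zi x)) - x := by abel
    rw [e1, map_sub, z2]
  rw [e]
  refine (Zi.le_opNorm _).trans ?_
  calc ‖Zi‖ * ‖(V x - x) - (V x - Z (V (Zi x)))‖
      ≤ (‖Zi‖ + 1) * (ε / (2 * (‖Zi‖ + 1)) + ε / (2 * (‖Zi‖ + 1))) :=
        mul_le_mul (by linarith) ((norm_sub_le _ _).trans (add_le_add b a)) (norm_nonneg _)
          (by positivity)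
    _ = ε := by field_simp; ring

/-- Strong convergence at the orbit of `f`. -/
def Sk (f : E) : Prop :=
  ∀ ε : ℝ, 0 < ε → Ev (fun V _ => ∀ k : Circle, ‖V (R k f) - R k f‖ ≤ ε)

lemma sk_add {f g : E} (hf : Sk f) (hg : Sk g) : Sk (f + g) := by
  intro ε hε
  refine ev_mono (ev_and (hf (ε / 2) (by positivity)) (hg (ε / 2) (by positivity))) ?_
  rintro V d - ⟨a, b⟩ k
  have e : V (R k (f + g)) - R k (f + g) = (V (R k f) - R k f) + (V (R k g) - R k g) := by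
    rw [map_add, map_add]; abel
  rw [e]
  refine (norm_add_le _ _).trans ?_
  linarith [a k, b k]

lemma sk_smul {f : E} (c : ℂ) (hf : Sk f) : Sk (c • f) := by
  intro ε hε
  refine ev_mono (hf (ε / (‖c‖ + 1)) (by positivity)) ?_
  rintro V d - a k
  have e : V (R k (c • f)) - R k (c • f) = c • (V (R k f) - R k f) := by
    rw [map_smul, map_smul, smul_sub]
  rw [e, norm_smul]
  calc ‖c‖ * ‖V (R k f) - R k f‖ ≤ (‖c‖ + 1) * (ε / (‖c‖ + 1)) :=
        mul_le_mul (by linarith) (a k) (norm_nonneg _) (by positivity)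
    _ = ε := by field_simp

lemma sk_zero : Sk 0 := by
  intro ε hε
  refine ⟨1 / 2, by norm_num, by norm_num, ?_⟩
  intro r ρ V d _ _ _ _ _ _ k
  rw [map_zero, map_zero, sub_zero, norm_zero]
  exact hε.le

lemma R_iso (hR : S_OPR) (k : Circle) (x : E) : ‖R k x‖ = ‖x‖ := by
  apply iso_of
  rw [hR.2.2.2.2.2.1 k, hR.2.2.2.1, inv_mul_cancel, hR.2.2.2.2.1]

theorem ls2 (h1 : S_LSM) (h2 : S_LUN) (h3 : S_OPR) (h4 : S_OPC) (h5 : S_OPA) (h6 : S_INV)
    (h7 : S_BLA) (h8 : S_BLM) : S_LS2 := by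
  have hsm : ∀ ε : ℝ, 0 < ε → Ev (fun V d => ‖V (eb 0) - eb 0‖ ≤ ε ∧ ‖d‖ ≤ ε) := by
    intro ε hε
    obtain ⟨δ, a, b, c⟩ := h1 ε hε
    refine ⟨δ, a, b, ?_⟩
    intro r ρ V d hr hr' hc ha hL hP
    obtain ⟨V', d', hL', hP', e1, e2⟩ := c r ρ hr hr' hc ha
    obtain ⟨u1, -, u3⟩ := h2 ρ V d V' d' hL hL'
    rw [u3 hP hP', u1]
    exact ⟨e1, e2⟩
  have hs0 : Sm (eb 0) := by
    intro ε hε
    exact ev_mono (hsm ε hε) (fun V d _ h => h.1)
  have hsn : ∀ n : ℤ, Sm (eb n) := by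
    intro n
    induction n using Int.induction_on with
    | zero => exact hs0
    | succ n ih =>
      rw [← h5.2.2.1.1]
      exact sm_Z h6 h7 h8 ih
    | pred n ih =>
      rw [← h5.2.2.1.2.1]
      exact sm_Zi h5 h6 h7 h8 ih
  have hkn : ∀ n : ℤ, Sk (eb n) := by
    intro n ε hε
    refine ev_mono (hsn n ε hε) ?_
    intro V d _ a k
    have e : V (R k (eb n)) - R k (eb n) = ((k ^ n : Circle) : ℂ) • (V (eb n) - eb n) := by
      rw [h3.1, map_smul, smul_sub]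
    rw [e, norm_smul, Circle.norm_coe, one_mul]
    exact a
  have hspan : ∀ g ∈ Submodule.span ℂ (Set.range eb), Sk g := by
    intro g hg
    induction hg using Submodule.span_induction with
    | mem x hx =>
      obtain ⟨n, rfl⟩ := hx
      exact hkn n
    | zero => exact sk_zero
    | add x y _ _ hx hy => exact sk_add hx hy
    | smul c x _ hx => exact sk_smul c hx
  have hall : ∀ f : E, Sk f := by
    intro f ε hε
    have hd : Dense ((Submodule.span ℂ (Set.range eb) : Submodule ℂ E) : Set E) :=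
      h4.2.2.2.2.2.2.2.2.2.2.2.2.2.2.1
    obtain ⟨g, hg, hfg⟩ := Metric.mem_closure_iff.1 (hd f) (ε / 4) (by positivity)
    refine ev_mono (hspan g hg (ε / 2) (by positivity)) ?_
    intro V d hV a k
    have e : V (R k f) - R k f = (V (R k g) - R k g) + (V (R k (f - g)) - R k (f - g)) := by
      rw [map_sub, map_sub]; abel
    rw [e]
    have h9 : ‖V (R k (f - g)) - R k (f - g)‖ ≤ ε / 4 + ε / 4 := by
      refine (norm_sub_le _ _).trans ?_
      rw [iso_of hV, R_iso h3]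
      rw [dist_eq_norm] at hfg
      linarith
    refine (norm_add_le _ _).trans ?_
    linarith [a k]
  intro f ε hε
  obtain ⟨δ, a, b, c⟩ := ev_and (hsm ε hε) (hall f ε hε)
  refine ⟨δ, a, b, ?_⟩
  intro r ρ V d hr hr' hc ha hL hP
  obtain ⟨⟨-, e2⟩, e3⟩ := c r ρ V d hr hr' hc ha hL hP
  exact ⟨e2, e3⟩

end Pool.Agent.W74.WH.Ls2
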